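import Pool.Agent.V1148.FrMain

/-!
# MP_b99c49_ag : the frontier property fails for `T = (1, 3^k, 1)`

All definitions are in `Pool/Agent/V1148/FrDefs.lean`:

* `GT K T` : the family `G_T` of homogeneous ideals `I` of `K[x,y,z]` with
  `dim (K[x,y,z]/I)_i = T i` for all `i`, with its Zariski topology (the quotient topology from
  the space `Pres K T` of presentations of the `I_i` as kernels of matrices; every point has a
  presentation, see `pres_surjective` in `Pool/Agent/V1148/FrGen.lean`);
* `betti I i j` : the graded Betti number `β_{i,j}(K[x,y,z]/I)`, as the dimension of the degree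
  `j` part of the `i`-th Koszul homology of `x, y, z` on `K[x,y,z]/I`;
* `stratum K T β` : the Betti stratum of `β`;
* `FrontierProperty K T` : the closure of every Betti stratum is a union of Betti strata;
* `Tk k` : the sequence `(1, 3^k, 1)`.
-/

namespace Pool.Agent.Results.MP_b99c49_ag.FrontierFails

open Pool.V1148.Frontier

/-- For every algebraically closed field `K` and every `k ≥ 3`, the Betti strata of `G_T`,
`T = (1, 3^k, 1)`, do not satisfy the frontier property. -/
theorem result (K : Type) [Field K] [IsAlgClosed K] (k : ℕ) (hk : 3 ≤ k) :
    ¬ FrontierProperty K (Tk k) := by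
  have : Infinite K := IsAlgClosed.instInfinite
  exact not_frontier k hk

end Pool.Agent.Results.MP_b99c49_ag.FrontierFails
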